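import Pool.Agent.N44.FA.Stm

/-!
# FA/GEN: `Gr` is generated by finitely many involutions whose products have order dividing 4

Project FA (helper44); this part by helper704.
-/

set_option autoImplicit false

namespace Pool.Agent.N704.FA

open Pool.Agent.N44.NS Pool.Agent.N44.FA

section rel

variable {A : Type} [Ring A]

theorem el_add {i j : Fin 3} (h : i ≠ j) (a b : A) : el i j h (a + b) = el i j h a * el i j h b := by
  apply Units.ext
  change (1 + Matrix.single i j (a + b) : Matrix (Fin 3) (Fin 3) A) =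
    (1 + Matrix.single i j a) * (1 + Matrix.single i j b)
  rw [Matrix.single_add]
  simp only [mul_add, add_mul, one_mul, mul_one, single_sq h, add_zero]
  abel

theorem el_rel {i j k : Fin 3} (hij : i ≠ j) (hjk : j ≠ k) (hik : i ≠ k) (a b : A) :
    el i j hij a * el j k hjk b = el j k hjk b * (el i j hij a * el i k hik (a * b)) := by
  apply Units.ext
  change ((1 + Matrix.single i j a) * (1 + Matrix.single j k b) : Matrix (Fin 3) (Fin 3) A) =
    (1 + Matrix.single j k b) * ((1 + Matrix.single i j a) * (1 + Matrix.single i k (a * b)))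
  have h1 : (Matrix.single i j a * Matrix.single j k b : Matrix (Fin 3) (Fin 3) A) =
      Matrix.single i k (a * b) := Matrix.single_mul_single_same ..
  have h2 : (Matrix.single j k b * Matrix.single i j a : Matrix (Fin 3) (Fin 3) A) = 0 :=
    Matrix.single_mul_single_of_ne _ _ _ _ hik.symm _
  have h3 : (Matrix.single i j a * Matrix.single i k (a * b) : Matrix (Fin 3) (Fin 3) A) = 0 :=
    Matrix.single_mul_single_of_ne _ _ _ _ hij.symm _
  have h4 : (Matrix.single j k b * Matrix.single i k (a * b) : Matrix (Fin 3) (Fin 3) A) = 0 :=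
    Matrix.single_mul_single_of_ne _ _ _ _ hik.symm _
  simp only [mul_add, add_mul, one_mul, mul_one, h1, h2, h3, h4, add_zero]
  abel

theorem el_comm1 {i j k : Fin 3} (hij : i ≠ j) (hik : i ≠ k) (a b : A) :
    el i k hik a * el i j hij b = el i j hij b * el i k hik a := by
  apply Units.ext
  change ((1 + Matrix.single i k a) * (1 + Matrix.single i j b) : Matrix (Fin 3) (Fin 3) A) =
    (1 + Matrix.single i j b) * (1 + Matrix.single i k a)
  have h1 : (Matrix.single i k a * Matrix.single i j b : Matrix (Fin 3) (Fin 3) A) = 0 :=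
    Matrix.single_mul_single_of_ne _ _ _ _ hik.symm _
  have h2 : (Matrix.single i j b * Matrix.single i k a : Matrix (Fin 3) (Fin 3) A) = 0 :=
    Matrix.single_mul_single_of_ne _ _ _ _ hij.symm _
  simp only [mul_add, add_mul, one_mul, mul_one, h1, h2, add_zero]
  abel

theorem el_comm2 {i j k : Fin 3} (hjk : j ≠ k) (hik : i ≠ k) (a b : A) :
    el i k hik a * el j k hjk b = el j k hjk b * el i k hik a := by
  apply Units.ext
  change ((1 + Matrix.single i k a) * (1 + Matrix.single j k b) : Matrix (Fin 3) (Fin 3) A) =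
    (1 + Matrix.single j k b) * (1 + Matrix.single i k a)
  have h1 : (Matrix.single i k a * Matrix.single j k b : Matrix (Fin 3) (Fin 3) A) = 0 :=
    Matrix.single_mul_single_of_ne _ _ _ _ hjk.symm _
  have h2 : (Matrix.single j k b * Matrix.single i k a : Matrix (Fin 3) (Fin 3) A) = 0 :=
    Matrix.single_mul_single_of_ne _ _ _ _ hik.symm _
  simp only [mul_add, add_mul, one_mul, mul_one, h1, h2, add_zero]
  abel

end rel

section EE

variable {i j k : Fin 3}

theorem EE_add (h : i ≠ j) (a b : ∀ k, Mt k) : EE i j h (a + b) = EE i j h a * EE i j h b :=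
  funext fun _ => el_add h _ _

theorem EE_rel (hij : i ≠ j) (hjk : j ≠ k) (hik : i ≠ k) (a b : ∀ k, Mt k) :
    EE i j hij a * EE j k hjk b = EE j k hjk b * (EE i j hij a * EE i k hik (a * b)) :=
  funext fun _ => el_rel hij hjk hik _ _

theorem EE_comm1 (hij : i ≠ j) (hik : i ≠ k) (a b : ∀ k, Mt k) :
    EE i k hik a * EE i j hij b = EE i j hij b * EE i k hik a :=
  funext fun _ => el_comm1 hij hik _ _

theorem EE_comm2 (hjk : j ≠ k) (hik : i ≠ k) (a b : ∀ k, Mt k) :
    EE i k hik a * EE j k hjk b = EE j k hjk b * EE i k hik a :=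
  funext fun _ => el_comm2 hjk hik _ _

theorem EE_zero (h : i ≠ j) : EE i j h 0 = 1 := by
  have h1 := EE_add h 0 0
  rw [add_zero] at h1
  exact left_eq_mul.mp h1

theorem add_self (a : ∀ k, Mt k) : a + a = 0 := by
  funext k
  ext x y
  exact CharTwo.add_self_eq_zero _

theorem EE_sq (h : i ≠ j) (a : ∀ k, Mt k) : EE i j h a * EE i j h a = 1 := by
  rw [← EE_add, add_self, EE_zero]

end EE

theorem pow4 {G : Type} [Group G] (x : G) : x ^ 4 = (x * x) * (x * x) := by
  rw [← pow_two, ← pow_two, ← pow_mul]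

theorem third : ∀ i j : Fin 3, i ≠ j → ∃ k : Fin 3, i ≠ k ∧ j ≠ k := by decide

theorem cover : ∀ i j k : Fin 3, i ≠ j → i ≠ k → j ≠ k → ∀ x : Fin 3, x = i ∨ x = j ∨ x = k := by
  decide

theorem grp {G : Type} [Group G] {s t z : G} (hs : s * s = 1) (ht : t * t = 1) (hz : z * z = 1)
    (hzs : z * s = s * z) (hzt : z * t = t * z) (h : s * t = t * (s * z)) : (s * t) ^ 4 = 1 := by
  have h2 : (s * t) * (s * t) = z := by
    calc (s * t) * (s * t) = t * (s * z) * (s * t) := by rw [← h]
      _ = t * (s * (z * s) * t) := by group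
      _ = t * ((s * s) * (z * t)) := by rw [hzs]; group
      _ = t * t * z := by rw [hs, hzt]; group
      _ = z := by rw [ht, one_mul]
  rw [pow4, h2, hz]

theorem grp' {G : Type} [Group G] {s t : G} (h : (s * t) ^ 4 = 1) : (t * s) ^ 4 = 1 := by
  have : (t * s) ^ 4 = s⁻¹ * (s * t) ^ 4 * s := by
    rw [pow4, pow4]
    group
  rw [this, h]
  group

theorem EE_four {i j k : Fin 3} (hij : i ≠ j) (hjk : j ≠ k) (hik : i ≠ k) (a b : ∀ k, Mt k) :
    (EE i j hij a * EE j k hjk b) ^ 4 = 1 :=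
  grp (EE_sq _ _) (EE_sq _ _) (EE_sq hik (a * b)) (EE_comm1 hij hik _ _) (EE_comm2 hjk hik _ _)
    (EE_rel hij hjk hik a b)

theorem q1 (q : Fin 3) : q ≠ q + 1 := by
  revert q; decide

section gen

variable {L : Subgroup (∀ k, St k)}

theorem mem_mul {i j k : Fin 3} (hij : i ≠ j) (hjk : j ≠ k) (hik : i ≠ k) {a b : ∀ k, Mt k}
    (ha : EE i j hij a ∈ L) (hb : EE j k hjk b ∈ L) : EE i k hik (a * b) ∈ L := by
  have h := EE_rel hij hjk hik a b
  have e : EE i k hik (a * b) = (EE i j hij a)⁻¹ * (EE j k hjk b)⁻¹ *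
      (EE i j hij a * EE j k hjk b) := by
    rw [h]
    group
  rw [e]
  exact mul_mem (mul_mem (inv_mem ha) (inv_mem hb)) (mul_mem ha hb)

theorem one_all (h1 : ∀ q : Fin 3, EE q (q + 1) (q1 q) 1 ∈ L) (i j : Fin 3) (h : i ≠ j) :
    EE i j h 1 ∈ L := by
  have hj : j = i + 1 ∨ j = i + 1 + 1 := by
    revert i j; decide
  rcases hj with rfl | rfl
  · exact h1 i
  · have := mem_mul (q1 i) (q1 (i + 1)) h (h1 i) (h1 (i + 1))
    rwa [one_mul] at this

theorem all (h1 : ∀ (i j : Fin 3) (h : i ≠ j), EE i j h 1 ∈ L) {a : ∀ k, Mt k} {i j : Fin 3}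
    (h : i ≠ j) (ha : EE i j h a ∈ L) (i' j' : Fin 3) (h' : i' ≠ j') : EE i' j' h' a ∈ L := by
  have s1 : ∀ {i j k : Fin 3} (hij : i ≠ j) (hjk : j ≠ k) (hik : i ≠ k),
      EE i j hij a ∈ L → EE i k hik a ∈ L := by
    intro i j k hij hjk hik ha
    have := mem_mul hij hjk hik ha (h1 j k hjk)
    rwa [mul_one] at this
  have s2 : ∀ {i j k : Fin 3} (hij : i ≠ j) (hjk : j ≠ k) (hik : i ≠ k),
      EE j k hjk a ∈ L → EE i k hik a ∈ L := by
    intro i j k hij hjk hik ha
    have := mem_mul hij hjk hik (h1 i j hij) ha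
    rwa [one_mul] at this
  obtain ⟨k, hik, hjk⟩ := third i j h
  have g1 : EE i k hik a ∈ L := s1 h hjk hik ha
  have g2 : EE j k hjk a ∈ L := s2 h.symm hik hjk g1
  have g3 : EE j i h.symm a ∈ L := s1 hjk hik.symm h.symm g2
  have g4 : EE k i hik.symm a ∈ L := s2 hjk.symm h.symm hik.symm g3
  have g5 : EE k j hjk.symm a ∈ L := s1 hik.symm h hjk.symm g4
  have hc := cover i j k h hik hjk
  rcases hc i' with rfl | rfl | rfl <;> rcases hc j' with rfl | rfl | rfl <;>
    first
      | exact absurd rfl h'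
      | exact ha
      | exact g1
      | exact g2
      | exact g3
      | exact g4
      | exact g5

/-- the subalgebra of the coefficients -/
def coef (L : Subgroup (∀ k, St k)) (h1 : ∀ (i j : Fin 3) (h : i ≠ j), EE i j h 1 ∈ L) :
    Subalgebra (ZMod 2) (∀ k, Mt k) where
  carrier := {a | EE 0 1 (by decide) a ∈ L}
  mul_mem' := by
    intro a b ha hb
    have h2 := all h1 _ hb 1 2 (by decide)
    exact all h1 _ (mem_mul (by decide) (by decide) (by decide : (0 : Fin 3) ≠ 2) ha h2) _ _ _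
  add_mem' := by
    intro a b ha hb
    show EE 0 1 _ (a + b) ∈ L
    rw [EE_add]
    exact mul_mem ha hb
  algebraMap_mem' := by
    intro r
    show EE 0 1 _ (algebraMap (ZMod 2) (∀ k, Mt k) r) ∈ L
    have hr : r = 0 ∨ r = 1 := by revert r; decide
    rcases hr with rfl | rfl
    · rw [map_zero, EE_zero]; exact one_mem _
    · rw [map_one]; exact h1 _ _ _

end gen

/-- the generators of the ring -/
def FF : Set (∀ k, Mt k) := {1, fun k => xx k 0, fun k => yy k 0, sh, sh'}

theorem FF_R {f : ∀ k, Mt k} (hf : f ∈ FF) : f ∈ R := by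
  rcases hf with rfl | hf
  · exact one_mem _
  · exact Algebra.subset_adjoin hf

theorem t_gen : S_GEN := by
  refine ⟨(fun p : Fin 3 × (∀ k, Mt k) => EE p.1 (p.1 + 1) (q1 p.1) p.2) '' (Set.univ ×ˢ FF),
    ?_, ?_, ?_, ?_⟩
  · refine Set.Finite.image _ (Set.Finite.prod Set.finite_univ ?_)
    unfold FF
    exact Set.toFinite _
  · set L := Subgroup.closure ((fun p : Fin 3 × (∀ k, Mt k) =>
      EE p.1 (p.1 + 1) (q1 p.1) p.2) '' (Set.univ ×ˢ FF)) with hL
    have hg : ∀ (q : Fin 3) (f : ∀ k, Mt k), f ∈ FF → EE q (q + 1) (q1 q) f ∈ L := by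
      intro q f hf
      exact Subgroup.subset_closure ⟨(q, f), ⟨Set.mem_univ _, hf⟩, rfl⟩
    have h1 : ∀ (i j : Fin 3) (h : i ≠ j), EE i j h 1 ∈ L :=
      one_all fun q => hg q 1 (Set.mem_insert _ _)
    apply le_antisymm
    · rw [hL, Subgroup.closure_le]
      rintro _ ⟨⟨q, f⟩, ⟨-, hf⟩, rfl⟩
      exact Subgroup.subset_closure ⟨q, q + 1, q1 q, f, FF_R hf, rfl⟩
    · have hR : R ≤ coef L h1 := by
        refine Algebra.adjoin_le fun f hf => ?_
        exact hg 0 f (Set.mem_insert_of_mem _ hf)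
      refine (Subgroup.closure_le _).2 ?_
      rintro _ ⟨i, j, h, a, ha, rfl⟩
      exact all h1 _ (hR ha) i j h
  · rintro _ ⟨⟨q, f⟩, -, rfl⟩
    exact EE_sq _ _
  · rintro _ ⟨⟨q, f⟩, -, rfl⟩ _ ⟨⟨q', f'⟩, -, rfl⟩
    have hq : q' = q ∨ q' = q + 1 ∨ q = q' + 1 := by revert q q'; decide
    dsimp only
    rcases hq with rfl | rfl | rfl
    · have h2 : (EE q' (q' + 1) (q1 q') f * EE q' (q' + 1) (q1 q') f') ^ 4 = 1 := by
        rw [← EE_add]
        have := EE_sq (q1 q') (f + f')
        rw [pow4, this, one_mul]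
      exact h2
    · exact EE_four (q1 q) (q1 (q + 1)) (by revert q; decide) f f'
    · exact grp' (EE_four (q1 q') (q1 (q' + 1)) (by revert q'; decide) f' f)

end Pool.Agent.N704.FA
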