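import Pool.Agent.N44.FA.Path

/-!
# FA/GREEDY-A: the path lemma

Project FA (helper44); this part by helper704.
-/

set_option autoImplicit false
set_option linter.all false

namespace Pool.Agent.N704.FA

open Pool.Agent.N44.FA

section

variable {V : Type} [AddCommGroup V] [Module (ZMod 2) V] [Finite V]

theorem zmod2 : ∀ r : ZMod 2, r = 0 ∨ r = 1 := by decide

theorem card_sub (A : Submodule (ZMod 2) V) :
    (A : Set V).ncard = 2 ^ Module.finrank (ZMod 2) A := by
  have : Fintype A := Fintype.ofFinite A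
  have h := Module.card_eq_pow_finrank (K := ZMod 2) (V := A)
  rw [ZMod.card] at h
  rw [← h, ← Nat.card_eq_fintype_card]
  rfl

/-- Three subspaces of codimension at least two do not cover the space. -/
theorem avoid (A B C : Submodule (ZMod 2) V)
    (hA : Module.finrank (ZMod 2) A + 2 ≤ Module.finrank (ZMod 2) V)
    (hB : Module.finrank (ZMod 2) B + 2 ≤ Module.finrank (ZMod 2) V)
    (hC : Module.finrank (ZMod 2) C + 2 ≤ Module.finrank (ZMod 2) V) :
    ∃ b : V, b ∉ A ∧ b ∉ B ∧ b ∉ C := by
  by_contra hcon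
  push Not at hcon
  have h1 : (Set.univ : Set V) ⊆ ((A : Set V) ∪ (B : Set V)) ∪ (C : Set V) := by
    intro b _
    by_cases h2 : b ∈ A
    · exact Or.inl (Or.inl h2)
    · by_cases h3 : b ∈ B
      · exact Or.inl (Or.inr h3)
      · exact Or.inr (hcon b h2 h3)
  have h2 := Set.ncard_le_ncard h1 (Set.toFinite _)
  have h3 := Set.ncard_union_le ((A : Set V) ∪ (B : Set V)) (C : Set V)
  have h4 := Set.ncard_union_le (A : Set V) (B : Set V)
  have h5 : (Set.univ : Set V).ncard = 2 ^ Module.finrank (ZMod 2) V := by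
    have := card_sub (⊤ : Submodule (ZMod 2) V)
    rw [finrank_top] at this
    exact this
  rw [card_sub] at h3 h4
  rw [card_sub] at h4
  rw [h5] at h2
  obtain ⟨n, hn⟩ : ∃ n, Module.finrank (ZMod 2) V = n + 2 :=
    ⟨Module.finrank (ZMod 2) V - 2, by omega⟩
  rw [hn] at h2 hA hB hC
  have g1 : 2 ^ Module.finrank (ZMod 2) A ≤ 2 ^ n := Nat.pow_le_pow_right (by norm_num) (by omega)
  have g2 : 2 ^ Module.finrank (ZMod 2) B ≤ 2 ^ n := Nat.pow_le_pow_right (by norm_num) (by omega)
  have g3 : 2 ^ Module.finrank (ZMod 2) C ≤ 2 ^ n := Nat.pow_le_pow_right (by norm_num) (by omega)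
  have g4 : 2 ^ (n + 2) = 4 * 2 ^ n := by rw [pow_add]; ring
  have g5 : 0 < 2 ^ n := by positivity
  omega

theorem sup_span (A : Submodule (ZMod 2) V) (c : V) :
    Module.finrank (ZMod 2) (A ⊔ Submodule.span (ZMod 2) {c} : Submodule (ZMod 2) V) ≤
      Module.finrank (ZMod 2) A + 1 := by
  refine (Submodule.finrank_add_le_finrank_add_finrank _ _).trans ?_
  have := finrank_span_le_card (R := ZMod 2) ({c} : Set V)
  rw [Set.toFinset_singleton, Finset.card_singleton] at this
  omega

theorem fr_map (A : Submodule (ZMod 2) V) (w : V ≃ₗ[ZMod 2] V) :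
    Module.finrank (ZMod 2) (A.map (w : V →ₗ[ZMod 2] V)) = Module.finrank (ZMod 2) A :=
  LinearEquiv.finrank_map_eq w A

theorem fr_comap (A : Submodule (ZMod 2) V) (w : V ≃ₗ[ZMod 2] V) :
    Module.finrank (ZMod 2) (A.comap (w : V →ₗ[ZMod 2] V)) = Module.finrank (ZMod 2) A := by
  rw [Submodule.comap_equiv_eq_map_symm]
  exact fr_map A w.symm

/-- The preimage under a linear map. -/
theorem fr_comap_le (A : Submodule (ZMod 2) V) (f : V →ₗ[ZMod 2] V) :
    Module.finrank (ZMod 2) (A.comap f) + Module.finrank (ZMod 2) (LinearMap.range f) ≤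
      Module.finrank (ZMod 2) V + Module.finrank (ZMod 2) A := by
  have h1 := LinearMap.finrank_range_add_finrank_ker (f.domRestrict (A.comap f))
  have h2 := LinearMap.finrank_range_add_finrank_ker f
  have h3 : Module.finrank (ZMod 2) (LinearMap.range (f.domRestrict (A.comap f))) ≤
      Module.finrank (ZMod 2) A := by
    apply Submodule.finrank_mono
    rintro _ ⟨⟨x, hx⟩, rfl⟩
    exact hx
  have h4 : Module.finrank (ZMod 2) (LinearMap.ker (f.domRestrict (A.comap f))) ≤
      Module.finrank (ZMod 2) (LinearMap.ker f) := by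
    have g : ∀ x : LinearMap.ker (f.domRestrict (A.comap f)), ((x : A.comap f) : V) ∈
        LinearMap.ker f := fun x => x.2
    let φ : LinearMap.ker (f.domRestrict (A.comap f)) →ₗ[ZMod 2] LinearMap.ker f :=
      LinearMap.codRestrict _ ((A.comap f).subtype ∘ₗ (Submodule.subtype _)) g
    apply LinearMap.finrank_le_finrank_of_injective (f := φ)
    intro x y hxy
    have h5 : ((φ x : LinearMap.ker f) : V) = ((φ y : LinearMap.ker f) : V) := by rw [hxy]
    exact Subtype.ext (Subtype.ext h5)
  omega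

theorem side_one (w : V ≃ₗ[ZMod 2] V) (D : Submodule (ZMod 2) V) : side w D 1 = D := by
  rw [side, if_pos rfl]

theorem side_neg (w : V ≃ₗ[ZMod 2] V) (D : Submodule (ZMod 2) V) :
    side w D (-1) = D.map (w : V →ₗ[ZMod 2] V) := by
  rw [side, if_neg (by decide)]

theorem side_fr (w : V ≃ₗ[ZMod 2] V) (D : Submodule (ZMod 2) V) (e : ℤˣ) :
    Module.finrank (ZMod 2) (side w D e) = Module.finrank (ZMod 2) D := by
  rcases Int.units_eq_one_or e with rfl | rfl
  · rw [side_one]
  · rw [side_neg, fr_map]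

/-- One step of the construction. -/
theorem step (hA : S_ADD) (w0 : V ≃ₗ[ZMod 2] V) (D : Submodule (ZMod 2) V) (e : ℤˣ) (c b : V)
    (hc : c ∉ side w0 D e) (hb : b ∉ side w0 D (-e)) :
    ∃ (w' : V ≃ₗ[ZMod 2] V) (D' : Submodule (ZMod 2) V), D ≤ D' ∧ (∀ z ∈ D, w' z = w0 z) ∧
      Module.finrank (ZMod 2) D' ≤ Module.finrank (ZMod 2) D + 1 ∧
      side w' D' e = side w0 D e ⊔ Submodule.span (ZMod 2) {c} ∧
      side w' D' (-e) = side w0 D (-e) ⊔ Submodule.span (ZMod 2) {b} ∧
      ∀ w : V ≃ₗ[ZMod 2] V, (∀ z ∈ D', w z = w' z) → (w ^ (e : ℤ)) c = b := by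
  have key : ∀ (w' : V ≃ₗ[ZMod 2] V) (x y : V), (∀ z ∈ D, w' z = w0 z) → w' x = y →
      (D ⊔ Submodule.span (ZMod 2) {x}).map (w' : V →ₗ[ZMod 2] V) =
        D.map (w0 : V →ₗ[ZMod 2] V) ⊔ Submodule.span (ZMod 2) {y} := by
    intro w' x y h1 h2
    rw [Submodule.map_sup, Submodule.map_span, Set.image_singleton]
    congr 1
    · ext z
      constructor
      · rintro ⟨u, hu, rfl⟩
        exact ⟨u, hu, (h1 u hu).symm⟩
      · rintro ⟨u, hu, rfl⟩
        exact ⟨u, hu, h1 u hu⟩
    · rw [← h2]; rfl
  rcases Int.units_eq_one_or e with rfl | rfl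
  · rw [side_one] at hc
    rw [side_neg] at hb
    obtain ⟨w', h1, h2⟩ := hA V w0 D c b hc hb
    refine ⟨w', D ⊔ Submodule.span (ZMod 2) {c}, le_sup_left, h1, sup_span _ _, ?_, ?_, ?_⟩
    · rw [side_one, side_one]
    · rw [side_neg, side_neg, key w' c b h1 h2]
    · intro w hw
      rw [Units.val_one, zpow_one]
      rw [hw c (Submodule.mem_sup_right (Submodule.mem_span_singleton_self c)), h2]
  · rw [side_neg] at hc
    rw [neg_neg, side_one] at hb
    obtain ⟨w', h1, h2⟩ := hA V w0 D b c hb hc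
    refine ⟨w', D ⊔ Submodule.span (ZMod 2) {b}, le_sup_left, h1, sup_span _ _, ?_, ?_, ?_⟩
    · rw [side_neg, side_neg, key w' b c h1 h2]
    · rw [neg_neg, side_one, side_one]
    · intro w hw
      have h3 : w b = c := by
        rw [hw b (Submodule.mem_sup_right (Submodule.mem_span_singleton_self b)), h2]
      rw [Units.val_neg, Units.val_one, zpow_neg_one, ← h3]
      exact w.symm_apply_apply b

theorem mem_sup_two {A : Submodule (ZMod 2) V} {b x : V}
    (h : x ∈ A ⊔ Submodule.span (ZMod 2) {b}) : x ∈ A ∨ x - b ∈ A := by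
  obtain ⟨a, ha, y, hy, rfl⟩ := Submodule.mem_sup.1 h
  obtain ⟨r, rfl⟩ := Submodule.mem_span_singleton.1 hy
  have hr := zmod2 r
  rcases hr with rfl | rfl
  · left; rw [zero_smul, add_zero]; exact ha
  · right; rw [one_smul, add_sub_cancel_right]; exact ha

end

theorem t_path (hA : S_ADD) : S_PATH := by
  intro V _ _ _ k C0 L
  induction L with
  | nil => intro h; exact absurd rfl h
  | cons p L ih =>
    obtain ⟨e, g⟩ := p
    intro _ hC hch w0 D c U hU hdim hc
    have hc' : c ∉ side w0 D e := hc (e, g) (by simp)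
    rw [List.length_cons] at hdim
    have f1 := side_fr w0 D (-e)
    have f0 := side_fr w0 D e
    rcases L with _ | ⟨⟨e', g'⟩, L⟩
    · -- the last letter
      obtain ⟨b, hb1, hb2, -⟩ := avoid (side w0 D (-e)) (U.comap (g : V →ₗ[ZMod 2] V)) ⊥
        (by omega) (by rw [fr_comap]; omega) (by rw [finrank_bot]; omega)
      obtain ⟨w', D', h1, h2, h3, h4, h5, h6⟩ := step hA w0 D e c b hc' hb1
      refine ⟨w', D', g b, h1, h2, by simpa using h3, hb2, fun w hw => ?_⟩
      show act w (g ((w ^ (e : ℤ)) c)) [] = g b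
      rw [h6 w hw]
      rfl
    · -- more letters
      have hch' : List.IsChain (fun a b : ℤˣ × (V ≃ₗ[ZMod 2] V) => a.1 ≠ b.1 → C0 ≤ rk a.2)
          ((e', g') :: L) := by
        exact (List.isChain_cons_cons.1 hch).2
      have hr : e ≠ e' → C0 ≤ rk g := (List.isChain_cons_cons.1 hch).1
      rw [List.length_cons] at hdim
      obtain ⟨b, hb1, hb2⟩ : ∃ b, b ∉ side w0 D (-e) ∧ ∀ (w' : V ≃ₗ[ZMod 2] V)
          (D' : Submodule (ZMod 2) V),
          side w' D' e = side w0 D e ⊔ Submodule.span (ZMod 2) {c} →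
          side w' D' (-e) = side w0 D (-e) ⊔ Submodule.span (ZMod 2) {b} →
          g b ∉ side w' D' e' := by
        by_cases hee : e = e'
        · subst hee
          obtain ⟨b, hb1, hb2, -⟩ := avoid (side w0 D (-e))
            ((side w0 D e ⊔ Submodule.span (ZMod 2) {c}).comap (g : V →ₗ[ZMod 2] V)) ⊥
            (by omega) (by
              rw [fr_comap]
              have := sup_span (side w0 D e) c
              omega) (by rw [finrank_bot]; omega)
          refine ⟨b, hb1, fun w' D' h4 _ => ?_⟩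
          rw [h4]
          exact hb2
        · have he' : e' = -e := by
            rcases Int.units_eq_one_or e with rfl | rfl <;>
            rcases Int.units_eq_one_or e' with rfl | rfl <;> simp at hee ⊢
          have hrk := hr hee
          have f2 := fr_comap_le (side w0 D (-e)) ((g : V →ₗ[ZMod 2] V) - LinearMap.id)
          have f3 : rk g = Module.finrank (ZMod 2)
            (LinearMap.range ((g : V →ₗ[ZMod 2] V) - LinearMap.id)) := rfl
          rw [← f3] at f2
          obtain ⟨b, hb1, hb2, hb3⟩ := avoid (side w0 D (-e))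
            ((side w0 D (-e)).comap (g : V →ₗ[ZMod 2] V))
            ((side w0 D (-e)).comap ((g : V →ₗ[ZMod 2] V) - LinearMap.id))
            (by omega) (by rw [fr_comap]; omega) (by omega)
          refine ⟨b, hb1, fun w' D' _ h5 => ?_⟩
          rw [he', h5]
          intro h6
          rcases mem_sup_two h6 with h7 | h7
          · exact hb2 h7
          · exact hb3 h7
      obtain ⟨w', D', h1, h2, h3, h4, h5, h6⟩ := step hA w0 D e c b hc' hb1
      have hnext := hb2 w' D' h4 h5
      obtain ⟨w1, D1, y, k1, k2, k3, k4, k5⟩ := ih (by simp) hC hch' w' D' (g b) U hU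
        (by rw [List.length_cons]; omega) (by
          intro a ha
          simp only [List.head?_cons, Option.mem_def, Option.some.injEq] at ha
          subst ha
          exact hnext)
      refine ⟨w1, D1, y, h1.trans k1, fun z hz => (k2 z (h1 hz)).trans (h2 z hz), ?_, k4, ?_⟩
      · rw [List.length_cons] at k3 ⊢
        rw [List.length_cons]
        omega
      · intro w hw
        have h7 : (w ^ (e : ℤ)) c = b := h6 w fun z hz => (hw z (k1 hz)).trans (k2 z hz)
        show act w (g ((w ^ (e : ℤ)) c)) ((e', g') :: L) = y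
        rw [h7]
        exact k5 w hw

end Pool.Agent.N704.FA
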